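import Mathlib

/-!
# The Ohtsuki series of the splice of two torus knots: definitions
-/

set_option autoImplicit false

open PowerSeries Finset

namespace Pool.Agent.H57.LMO

/-- The power series of `sinh (x / (2 a)) / (x / (2 a))` in `y = x ^ 2`. -/
noncomputable def sinhc (a : ℚ) : ℚ⟦X⟧ :=
  PowerSeries.mk fun n => 1 / ((2 * a) ^ (2 * n) * (2 * n + 1).factorial)

/-- The power series of `sinh (h / 2) / (h / 2)` in `h`. -/
noncomputable def sinhcH : ℚ⟦X⟧ :=
  PowerSeries.mk fun n => if Even n then 1 / (2 ^ n * (n + 1).factorial) else 0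

/-- The function of the torus knot `T(a, b)`:
`sinhc (x / (2 a)) * sinhc (x / (2 b)) / sinhc (x / 2)` in `y = x ^ 2`. -/
noncomputable def psi (a b : ℚ) : ℚ⟦X⟧ := sinhc a * sinhc b * (sinhc 1)⁻¹

/-- The expectation of `x ^ (2 i + 1) * y ^ (2 j + 1)` for a centred Gaussian vector `(x, y)` with
`E x ^ 2 = 2 A h`, `E x y = 2 B h`, `E y ^ 2 = 2 C h` is `mom A B C i j * h ^ (i + j + 1)`. -/
def mom (A B C : ℚ) (i j : ℕ) : ℚ :=
  ∑ e ∈ range (min i j + 1), ((2 * i + 1).factorial * (2 * j + 1).factorial : ℚ) /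
    ((i - e).factorial * (2 * e + 1).factorial * (j - e).factorial) *
    (A ^ (i - e) * (2 * B) ^ (2 * e + 1) * C ^ (j - e))

/-- The expectation of `x f(x ^ 2) * y g(y ^ 2)` divided by its leading term `2 B h`. -/
noncomputable def gauss (A B C : ℚ) (f g : ℚ⟦X⟧) : ℚ⟦X⟧ :=
  PowerSeries.mk fun n => ∑ p ∈ antidiagonal n,
    coeff p.1 f * coeff p.2 g * mom A B C p.1 p.2 / (2 * B)

/-- The exponent. -/
def kap (a b c d : ℚ) : ℚ :=
  -(a * b * (1 / a ^ 2 + 1 / b ^ 2 - 1) + c * d * (1 / c ^ 2 + 1 / d ^ 2 - 1)) / 4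

/-- The Ohtsuki series of the splice of the torus knots `T(a, b)` and `T(c, d)`. -/
noncomputable def tau (a b c d : ℚ) : ℚ⟦X⟧ :=
  rescale (kap a b c d) (exp ℚ) * sinhcH⁻¹ *
    gauss (a * b) (a * b * (c * d)) (c * d) (psi a b) (psi c d)

/-- `T(a, b)` is a torus knot, possibly trivial. -/
def Torus (a b : ℤ) : Prop := a ≠ 0 ∧ b ≠ 0 ∧ IsCoprime a b

/-- The torus knot `T(a, b)` is the trivial knot. -/
def Trivial (a b : ℤ) : Prop := |a| = 1 ∨ |b| = 1

/-- `T(a, b)` and `T(c, d)` are the same nontrivial torus knot. -/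
def SameKnot (a b c d : ℤ) : Prop :=
  (c = a ∧ d = b) ∨ (c = b ∧ d = a) ∨ (c = -a ∧ d = -b) ∨ (c = -b ∧ d = -a)

/-- The unordered pairs of torus knots `T(a, b), T(c, d)` and `T(a', b'), T(c', d')` agree. -/
def SamePair (a b c d a' b' c' d' : ℤ) : Prop :=
  (SameKnot a b a' b' ∧ SameKnot c d c' d') ∨ (SameKnot a b c' d' ∧ SameKnot c d a' b')

end Pool.Agent.H57.LMO
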