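import Mathlib
import Pool.Agent.H57.LMO.Defs

/-!
# Coefficients of the series of a torus knot
-/

set_option autoImplicit false

open PowerSeries Finset

namespace Pool.Agent.H57.LMO

lemma coeff_sinhc (a : ℚ) (n : ℕ) :
    coeff n (sinhc a) = 1 / ((2 * a) ^ (2 * n) * (2 * n + 1).factorial) := by
  simp [sinhc]

lemma constCoeff_sinhc (a : ℚ) : constantCoeff (sinhc a) = 1 := by
  rw [← coeff_zero_eq_constantCoeff_apply, coeff_sinhc]; simp

/-- The values of the coefficients of `(sinhc 1)⁻¹`. -/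
lemma sinhc_one_inv :
    coeff 0 (sinhc 1)⁻¹ = 1 ∧ coeff 1 (sinhc 1)⁻¹ = -1 / 24 ∧ coeff 2 (sinhc 1)⁻¹ = 7 / 5760 ∧
    coeff 3 (sinhc 1)⁻¹ = -31 / 967680 ∧ coeff 4 (sinhc 1)⁻¹ = 127 / 154828800 ∧
    coeff 5 (sinhc 1)⁻¹ = -73 / 3503554560 ∧
    coeff 6 (sinhc 1)⁻¹ = 1414477 / 2678117105664000 ∧
    coeff 7 (sinhc 1)⁻¹ = -8191 / 612141052723200 := by
  have hne : constantCoeff (sinhc 1) ≠ 0 := by rw [constCoeff_sinhc]; norm_num
  have h := PowerSeries.mul_inv_cancel (sinhc 1) hne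
  have key : ∀ n : ℕ, ∑ p ∈ antidiagonal n, coeff p.1 (sinhc 1) * coeff p.2 (sinhc 1)⁻¹ =
      if n = 0 then 1 else 0 := by
    intro n
    rw [← coeff_mul, h, coeff_one]
  have h0 := key 0
  have h1 := key 1
  have h2 := key 2
  have h3 := key 3
  have h4 := key 4
  have h5 := key 5
  have h6 := key 6
  have h7 := key 7
  simp only [Finset.Nat.antidiagonal_succ, Finset.Nat.antidiagonal_zero, Finset.map_singleton,
    Finset.sum_cons, Finset.sum_singleton, Finset.map_cons,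
    Function.Embedding.prodMap, Function.Embedding.coeFn_mk, Prod.map, coeff_sinhc,
    Function.Embedding.refl_apply, Nat.succ_eq_add_one, Nat.factorial] at h0 h1 h2 h3 h4 h5 h6 h7
  norm_num at h0 h1 h2 h3 h4 h5 h6 h7
  have r0 : coeff 0 (sinhc 1)⁻¹ = 1 := by
    rw [coeff_zero_eq_constantCoeff_apply, constantCoeff_inv, h0, inv_one]
  rw [h0, inv_one] at h1 h2 h3 h4 h5 h6 h7
  have r1 : coeff 1 (sinhc 1)⁻¹ = -1 / 24 := by linarith
  have r2 : coeff 2 (sinhc 1)⁻¹ = 7 / 5760 := by linarith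
  have r3 : coeff 3 (sinhc 1)⁻¹ = -31 / 967680 := by linarith
  have r4 : coeff 4 (sinhc 1)⁻¹ = 127 / 154828800 := by linarith
  have r5 : coeff 5 (sinhc 1)⁻¹ = -73 / 3503554560 := by linarith
  have r6 : coeff 6 (sinhc 1)⁻¹ = 1414477 / 2678117105664000 := by linarith
  have r7 : coeff 7 (sinhc 1)⁻¹ = -8191 / 612141052723200 := by linarith
  exact ⟨r0, r1, r2, r3, r4, r5, r6, r7⟩

lemma coeff_sinhc_mul (a b : ℚ) (ha : a ≠ 0) (n : ℕ) :
    coeff n (sinhc a) * (a * b) ^ (2 * n) = b ^ (2 * n) / (4 ^ n * (2 * n + 1).factorial) := by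
  rw [coeff_sinhc]
  have h4 : (2 * a) ^ (2 * n) = 4 ^ n * a ^ (2 * n) := by
    rw [mul_pow, pow_mul 2 2 n]; norm_num
  rw [h4, mul_pow]
  have := (Nat.cast_ne_zero (R := ℚ)).2 (Nat.factorial_ne_zero (2 * n + 1))
  field_simp

/-- The scaled coefficients of `sinhc a * sinhc b`. -/
lemma coeff_sinhc_sinhc (a b : ℚ) (ha : a ≠ 0) (hb : b ≠ 0) (n : ℕ) :
    coeff n (sinhc a * sinhc b) * (a * b) ^ (2 * n) =
      ∑ p ∈ antidiagonal n, b ^ (2 * p.1) / (4 ^ p.1 * (2 * p.1 + 1).factorial) *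
        (a ^ (2 * p.2) / (4 ^ p.2 * (2 * p.2 + 1).factorial)) := by
  rw [coeff_mul, Finset.sum_mul]
  refine Finset.sum_congr rfl fun p hp => ?_
  have hp' : p.1 + p.2 = n := by simpa using hp
  rw [← coeff_sinhc_mul a b ha p.1, ← coeff_sinhc_mul b a hb p.2, ← hp', mul_comm b a, mul_add,
    pow_add]
  ring

/-- The scaled coefficients of `psi a b`. -/
lemma coeff_psi (a b : ℚ) (ha : a ≠ 0) (hb : b ≠ 0) (n : ℕ) :
    coeff n (psi a b) * (a * b) ^ (2 * n) =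
      ∑ q ∈ antidiagonal n, (∑ p ∈ antidiagonal q.1,
        b ^ (2 * p.1) / (4 ^ p.1 * (2 * p.1 + 1).factorial) *
        (a ^ (2 * p.2) / (4 ^ p.2 * (2 * p.2 + 1).factorial))) *
        (coeff q.2 (sinhc 1)⁻¹ * (a * b) ^ (2 * q.2)) := by
  rw [psi, coeff_mul, Finset.sum_mul]
  refine Finset.sum_congr rfl fun q hq => ?_
  have hq' : q.1 + q.2 = n := by simpa using hq
  rw [← coeff_sinhc_sinhc a b ha hb q.1, ← hq', mul_add, pow_add]
  ring

end Pool.Agent.H57.LMO
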