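import Mathlib
import Pool.Agent.H57.LMO.Psi

/-!
# The first eight coefficients of the series of a torus knot
-/

set_option autoImplicit false
set_option linter.unusedSimpArgs false

open PowerSeries Finset

namespace Pool.Agent.H57.LMO

/-- The scaled coefficients of `psi a b` as polynomials in `P = a * b` and
`U = (a ^ 2 - 1) * (b ^ 2 - 1)`. -/
def pp : ℕ → ℚ → ℚ → ℚ
  | 0, _, _ => 1
  | 1, _, U => (1 - U) / 24
  | 2, P, U => (4 * P ^ 2 * U + 3 * U ^ 2 - 6 * U + 3) / 5760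
  | 3, P, U => (-16 * P ^ 4 * U - 12 * P ^ 2 * U ^ 2 - 3 * U ^ 3 + 12 * P ^ 2 * U + 9 * U ^ 2 - 9 * U + 3) /
    967680
  | 4, P, U => (192 * P ^ 6 * U + 144 * P ^ 4 * U ^ 2 + 40 * P ^ 2 * U ^ 3 - 128 * P ^ 4 * U + 5 * U ^ 4 - 80 *
    P ^ 2 * U ^ 2 - 20 * U ^ 3 + 40 * P ^ 2 * U + 30 * U ^ 2 - 20 * U + 5) / 464486400
  | 5, P, U => (-1280 * P ^ 8 * U - 960 * P ^ 6 * U ^ 2 - 272 * P ^ 4 * U ^ 3 + 832 * P ^ 6 * U - 40 * P ^ 2 *
    U ^ 4 + 496 * P ^ 4 * U ^ 2 - 3 * U ^ 5 + 120 * P ^ 2 * U ^ 3 - 224 * P ^ 4 * U + 15 * U ^ 4 -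
    120 * P ^ 2 * U ^ 2 - 30 * U ^ 3 + 40 * P ^ 2 * U + 30 * U ^ 2 - 15 * U + 3) / 122624409600
  | 6, P, U => (707584 * P ^ 10 * U + 530688 * P ^ 8 * U ^ 2 + 151040 * P ^ 6 * U ^ 3 - 457216 * P ^ 8 * U +
    22960 * P ^ 4 * U ^ 4 - 269440 * P ^ 6 * U ^ 2 + 2100 * P ^ 2 * U ^ 5 - 63840 * P ^ 4 * U ^ 3 +
    119360 * P ^ 6 * U + 105 * U ^ 6 - 8400 * P ^ 2 * U ^ 4 + 58800 * P ^ 4 * U ^ 2 - 630 * U ^ 5 +
    12600 * P ^ 2 * U ^ 3 - 17920 * P ^ 4 * U + 1575 * U ^ 4 - 8400 * P ^ 2 * U ^ 2 - 2100 * U ^ 3 +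
    2100 * P ^ 2 * U + 1575 * U ^ 2 - 630 * U + 105) / 2678117105664000
  | 7, P, U => (-430080 * P ^ 12 * U - 322560 * P ^ 10 * U ^ 2 - 91904 * P ^ 8 * U ^ 3 + 277504 * P ^ 10 * U -
    14080 * P ^ 6 * U ^ 4 + 163072 * P ^ 8 * U ^ 2 - 1344 * P ^ 4 * U ^ 5 + 38400 * P ^ 6 * U ^ 3 -
    71936 * P ^ 8 * U - 84 * P ^ 2 * U ^ 6 + 5040 * P ^ 4 * U ^ 4 - 34752 * P ^ 6 * U ^ 2 - 3 * U ^
    7 + 420 * P ^ 2 * U ^ 5 - 7056 * P ^ 4 * U ^ 3 + 10432 * P ^ 6 * U + 21 * U ^ 6 - 840 * P ^ 2 *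
    U ^ 4 + 4368 * P ^ 4 * U ^ 2 - 63 * U ^ 5 + 840 * P ^ 2 * U ^ 3 - 1008 * P ^ 4 * U + 105 * U ^ 4
    - 420 * P ^ 2 * U ^ 2 - 105 * U ^ 3 + 84 * P ^ 2 * U + 63 * U ^ 2 - 21 * U + 3) /
    64274810535936000
  | _, _, _ => 0

lemma psi_coeff_0 (a b : ℚ) (ha : a ≠ 0) (hb : b ≠ 0) :
    coeff 0 (psi a b) * (a * b) ^ (2 * 0) = pp 0 (a * b) ((a ^ 2 - 1) * (b ^ 2 - 1)) := by
  obtain ⟨r0, r1, r2, r3, r4, r5, r6, r7⟩ := sinhc_one_inv
  rw [coeff_psi a b ha hb 0]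
  simp only [Finset.Nat.antidiagonal_succ, Finset.Nat.antidiagonal_zero, Finset.map_singleton,
    Finset.sum_cons, Finset.sum_singleton, Finset.map_cons,
    Function.Embedding.prodMap, Function.Embedding.coeFn_mk, Prod.map,
    Function.Embedding.refl_apply, Nat.succ_eq_add_one, Nat.factorial, pp, zero_add,
    Nat.reduceAdd, Nat.reduceMul, r0, r1, r2, r3, r4, r5, r6, r7]
  push_cast
  ring

lemma psi_coeff_1 (a b : ℚ) (ha : a ≠ 0) (hb : b ≠ 0) :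
    coeff 1 (psi a b) * (a * b) ^ (2 * 1) = pp 1 (a * b) ((a ^ 2 - 1) * (b ^ 2 - 1)) := by
  obtain ⟨r0, r1, r2, r3, r4, r5, r6, r7⟩ := sinhc_one_inv
  rw [coeff_psi a b ha hb 1]
  simp only [Finset.Nat.antidiagonal_succ, Finset.Nat.antidiagonal_zero, Finset.map_singleton,
    Finset.sum_cons, Finset.sum_singleton, Finset.map_cons,
    Function.Embedding.prodMap, Function.Embedding.coeFn_mk, Prod.map,
    Function.Embedding.refl_apply, Nat.succ_eq_add_one, Nat.factorial, pp, zero_add,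
    Nat.reduceAdd, Nat.reduceMul, r0, r1, r2, r3, r4, r5, r6, r7]
  push_cast
  ring

lemma psi_coeff_2 (a b : ℚ) (ha : a ≠ 0) (hb : b ≠ 0) :
    coeff 2 (psi a b) * (a * b) ^ (2 * 2) = pp 2 (a * b) ((a ^ 2 - 1) * (b ^ 2 - 1)) := by
  obtain ⟨r0, r1, r2, r3, r4, r5, r6, r7⟩ := sinhc_one_inv
  rw [coeff_psi a b ha hb 2]
  simp only [Finset.Nat.antidiagonal_succ, Finset.Nat.antidiagonal_zero, Finset.map_singleton,
    Finset.sum_cons, Finset.sum_singleton, Finset.map_cons,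
    Function.Embedding.prodMap, Function.Embedding.coeFn_mk, Prod.map,
    Function.Embedding.refl_apply, Nat.succ_eq_add_one, Nat.factorial, pp, zero_add,
    Nat.reduceAdd, Nat.reduceMul, r0, r1, r2, r3, r4, r5, r6, r7]
  push_cast
  ring

lemma psi_coeff_3 (a b : ℚ) (ha : a ≠ 0) (hb : b ≠ 0) :
    coeff 3 (psi a b) * (a * b) ^ (2 * 3) = pp 3 (a * b) ((a ^ 2 - 1) * (b ^ 2 - 1)) := by
  obtain ⟨r0, r1, r2, r3, r4, r5, r6, r7⟩ := sinhc_one_inv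
  rw [coeff_psi a b ha hb 3]
  simp only [Finset.Nat.antidiagonal_succ, Finset.Nat.antidiagonal_zero, Finset.map_singleton,
    Finset.sum_cons, Finset.sum_singleton, Finset.map_cons,
    Function.Embedding.prodMap, Function.Embedding.coeFn_mk, Prod.map,
    Function.Embedding.refl_apply, Nat.succ_eq_add_one, Nat.factorial, pp, zero_add,
    Nat.reduceAdd, Nat.reduceMul, r0, r1, r2, r3, r4, r5, r6, r7]
  push_cast
  ring

lemma psi_coeff_4 (a b : ℚ) (ha : a ≠ 0) (hb : b ≠ 0) :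
    coeff 4 (psi a b) * (a * b) ^ (2 * 4) = pp 4 (a * b) ((a ^ 2 - 1) * (b ^ 2 - 1)) := by
  obtain ⟨r0, r1, r2, r3, r4, r5, r6, r7⟩ := sinhc_one_inv
  rw [coeff_psi a b ha hb 4]
  simp only [Finset.Nat.antidiagonal_succ, Finset.Nat.antidiagonal_zero, Finset.map_singleton,
    Finset.sum_cons, Finset.sum_singleton, Finset.map_cons,
    Function.Embedding.prodMap, Function.Embedding.coeFn_mk, Prod.map,
    Function.Embedding.refl_apply, Nat.succ_eq_add_one, Nat.factorial, pp, zero_add,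
    Nat.reduceAdd, Nat.reduceMul, r0, r1, r2, r3, r4, r5, r6, r7]
  push_cast
  ring

lemma psi_coeff_5 (a b : ℚ) (ha : a ≠ 0) (hb : b ≠ 0) :
    coeff 5 (psi a b) * (a * b) ^ (2 * 5) = pp 5 (a * b) ((a ^ 2 - 1) * (b ^ 2 - 1)) := by
  obtain ⟨r0, r1, r2, r3, r4, r5, r6, r7⟩ := sinhc_one_inv
  rw [coeff_psi a b ha hb 5]
  simp only [Finset.Nat.antidiagonal_succ, Finset.Nat.antidiagonal_zero, Finset.map_singleton,
    Finset.sum_cons, Finset.sum_singleton, Finset.map_cons,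
    Function.Embedding.prodMap, Function.Embedding.coeFn_mk, Prod.map,
    Function.Embedding.refl_apply, Nat.succ_eq_add_one, Nat.factorial, pp, zero_add,
    Nat.reduceAdd, Nat.reduceMul, r0, r1, r2, r3, r4, r5, r6, r7]
  push_cast
  ring

lemma psi_coeff_6 (a b : ℚ) (ha : a ≠ 0) (hb : b ≠ 0) :
    coeff 6 (psi a b) * (a * b) ^ (2 * 6) = pp 6 (a * b) ((a ^ 2 - 1) * (b ^ 2 - 1)) := by
  obtain ⟨r0, r1, r2, r3, r4, r5, r6, r7⟩ := sinhc_one_inv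
  rw [coeff_psi a b ha hb 6]
  simp only [Finset.Nat.antidiagonal_succ, Finset.Nat.antidiagonal_zero, Finset.map_singleton,
    Finset.sum_cons, Finset.sum_singleton, Finset.map_cons,
    Function.Embedding.prodMap, Function.Embedding.coeFn_mk, Prod.map,
    Function.Embedding.refl_apply, Nat.succ_eq_add_one, Nat.factorial, pp, zero_add,
    Nat.reduceAdd, Nat.reduceMul, r0, r1, r2, r3, r4, r5, r6, r7]
  push_cast
  ring

lemma psi_coeff_7 (a b : ℚ) (ha : a ≠ 0) (hb : b ≠ 0) :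
    coeff 7 (psi a b) * (a * b) ^ (2 * 7) = pp 7 (a * b) ((a ^ 2 - 1) * (b ^ 2 - 1)) := by
  obtain ⟨r0, r1, r2, r3, r4, r5, r6, r7⟩ := sinhc_one_inv
  rw [coeff_psi a b ha hb 7]
  simp only [Finset.Nat.antidiagonal_succ, Finset.Nat.antidiagonal_zero, Finset.map_singleton,
    Finset.sum_cons, Finset.sum_singleton, Finset.map_cons,
    Function.Embedding.prodMap, Function.Embedding.coeFn_mk, Prod.map,
    Function.Embedding.refl_apply, Nat.succ_eq_add_one, Nat.factorial, pp, zero_add,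
    Nat.reduceAdd, Nat.reduceMul, r0, r1, r2, r3, r4, r5, r6, r7]
  push_cast
  ring

lemma psi_coeff (a b : ℚ) (ha : a ≠ 0) (hb : b ≠ 0) (n : ℕ) (hn : n ≤ 7) :
    coeff n (psi a b) * (a * b) ^ (2 * n) = pp n (a * b) ((a ^ 2 - 1) * (b ^ 2 - 1)) := by
  interval_cases n
  · exact psi_coeff_0 a b ha hb
  · exact psi_coeff_1 a b ha hb
  · exact psi_coeff_2 a b ha hb
  · exact psi_coeff_3 a b ha hb
  · exact psi_coeff_4 a b ha hb
  · exact psi_coeff_5 a b ha hb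
  · exact psi_coeff_6 a b ha hb
  · exact psi_coeff_7 a b ha hb

end Pool.Agent.H57.LMO
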