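import Mathlib
import Pool.Agent.H57.LMO.PsiJ

/-!
# The scaled coefficients of the Gaussian pairing and of the exponential factor
-/

set_option autoImplicit false
set_option linter.unusedSimpArgs false

open PowerSeries Finset

namespace Pool.Agent.H57.LMO

/-- The reduced moments. -/
def mm (i j : ℕ) (t : ℚ) : ℚ :=
  ∑ e ∈ range (min i j + 1), ((2 * i + 1).factorial * (2 * j + 1).factorial : ℚ) /
    ((i - e).factorial * (2 * e + 1).factorial * (j - e).factorial) * (4 * t) ^ e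

lemma mom_eq (P R : ℚ) (hP : P ≠ 0) (hR : R ≠ 0) (i j : ℕ) :
    mom P (P * R) R i j / (2 * (P * R)) = P ^ i * R ^ j * mm i j (P * R) := by
  rw [mom, mm, Finset.sum_div, Finset.mul_sum]
  refine Finset.sum_congr rfl fun e he => ?_
  have he' : e ≤ min i j := by simpa [Nat.lt_succ_iff] using he
  have h1 : e ≤ i := he'.trans (min_le_left _ _)
  have h2 : e ≤ j := he'.trans (min_le_right _ _)
  obtain ⟨i', rfl⟩ := Nat.exists_eq_add_of_le h1
  obtain ⟨j', rfl⟩ := Nat.exists_eq_add_of_le h2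
  rw [Nat.add_sub_cancel_left, Nat.add_sub_cancel_left]
  have h : P ^ i' * (2 * (P * R)) ^ (2 * e + 1) * R ^ j' / (2 * (P * R)) =
      P ^ (e + i') * R ^ (e + j') * (4 * (P * R)) ^ e := by
    have h4 : (4 : ℚ) = 2 ^ 2 := by norm_num
    rw [pow_succ (2 * (P * R)), h4, mul_pow (2 ^ 2 : ℚ), ← pow_mul, mul_pow 2, pow_mul (P * R), mul_pow P R,
      pow_add, pow_add]
    field_simp
    rw [← mul_pow, ← mul_pow]
    ring
  rw [mul_div_assoc, h]
  ring

/-- The scaled coefficients of the Gaussian pairing. -/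
def gg (n : ℕ) (P R U V : ℚ) : ℚ :=
  ∑ p ∈ antidiagonal n, pp p.1 P U * pp p.2 R V * (P ^ p.2 * R ^ p.1) * mm p.1 p.2 (P * R)

lemma coeff_gauss (a b c d : ℚ) (ha : a ≠ 0) (hb : b ≠ 0) (hc : c ≠ 0) (hd : d ≠ 0) (n : ℕ)
    (hn : n ≤ 7) :
    coeff n (gauss (a * b) (a * b * (c * d)) (c * d) (psi a b) (psi c d)) *
      (a * b * (c * d)) ^ n =
    gg n (a * b) (c * d) ((a ^ 2 - 1) * (b ^ 2 - 1)) ((c ^ 2 - 1) * (d ^ 2 - 1)) := by
  rw [gauss, coeff_mk, gg, Finset.sum_mul]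
  refine Finset.sum_congr rfl fun p hp => ?_
  have hp' : p.1 + p.2 = n := by simpa using hp
  rw [← psi_coeff a b ha hb p.1 (by omega), ← psi_coeff c d hc hd p.2 (by omega),
    mul_div_assoc, mom_eq _ _ (mul_ne_zero ha hb) (mul_ne_zero hc hd), ← hp', mul_pow (a * b),
    pow_add, pow_add, two_mul, two_mul, pow_add, pow_add]
  ring

/-- The coefficients of `tau * sinhcH`. -/
lemma coeff_exp_gauss (a b c d : ℚ) (ha : a ≠ 0) (hb : b ≠ 0) (hc : c ≠ 0) (hd : d ≠ 0) (n : ℕ)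
    (hn : n ≤ 7) :
    coeff n (tau a b c d * sinhcH) * (a * b * (c * d)) ^ n =
      ∑ p ∈ antidiagonal n,
        (-((1 - (a ^ 2 - 1) * (b ^ 2 - 1)) * (c * d) +
          (1 - (c ^ 2 - 1) * (d ^ 2 - 1)) * (a * b)) / 4) ^ p.1 / p.1.factorial *
        gg p.2 (a * b) (c * d) ((a ^ 2 - 1) * (b ^ 2 - 1)) ((c ^ 2 - 1) * (d ^ 2 - 1)) := by
  have hs : constantCoeff sinhcH ≠ 0 := by
    rw [← coeff_zero_eq_constantCoeff_apply, sinhcH, coeff_mk]; simp
  have h1 : tau a b c d * sinhcH = rescale (kap a b c d) (exp ℚ) *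
      gauss (a * b) (a * b * (c * d)) (c * d) (psi a b) (psi c d) := by
    rw [tau, mul_right_comm, mul_assoc _ sinhcH⁻¹, PowerSeries.inv_mul_cancel _ hs, mul_one]
  have hk : kap a b c d * (a * b * (c * d)) = -((1 - (a ^ 2 - 1) * (b ^ 2 - 1)) * (c * d) +
          (1 - (c ^ 2 - 1) * (d ^ 2 - 1)) * (a * b)) / 4 := by
    rw [kap]; field_simp; ring
  rw [h1, coeff_mul, Finset.sum_mul]
  refine Finset.sum_congr rfl fun p hp => ?_
  have hp' : p.1 + p.2 = n := by simpa using hp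
  rw [← coeff_gauss a b c d ha hb hc hd p.2 (by omega), coeff_rescale, coeff_exp, ← hk, ← hp',
    mul_pow, pow_add]
  simp only [map_div₀, map_one, map_natCast]
  ring

end Pool.Agent.H57.LMO
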