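import Mathlib
import Pool.Agent.H57.LMO.Gauss

/-!
# The first eight coefficients of the Ohtsuki series of the splice of two torus knots
-/

set_option autoImplicit false
set_option linter.unusedSimpArgs false

open PowerSeries Finset

namespace Pool.Agent.H57.LMO

/-- The sixth form. -/
def E6 (e p w A1 L : ℚ) : ℚ :=
  240 * L ^ 2 - 240 * A1 ^ 2 + L * (180 * w + 8352 * e ^ 2 + 960 * p ^ 2 - 5664 * p - 720) -
    e * A1 * (4320 * p + 7680) + 1280 * p ^ 4 - 8832 * p ^ 3 + 29824 * p ^ 2 +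
    240 * p ^ 2 * w + 11136 * e ^ 2 * p ^ 2 + 11328 * p - 2688 * p * w - 84864 * e ^ 2 * p +
    720 - 600 * w + 45 * w ^ 2 - 9024 * e ^ 2 + 3264 * e ^ 2 * w + 24576 * e ^ 4

/-- The seventh form. -/
def E7 (e p w A0 A1 L : ℚ) : ℚ :=
  -(9 / 5) * e * E6 e p w A1 L + (192 * p + 352) * L * A1 - 112 * e * A1 ^ 2 +
    A1 * (320 * p ^ 3 - 2016 * p ^ 2 - 5760 * p + 84 * p * w - 704 + 144 * w -
      11136 / 5 * e ^ 2 * p - 6768 * e ^ 2 + 60 * e ^ 2 * w + 39648 / 5 * e ^ 4) +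
    e * (1 - p) * A0 * (60 * w + 39648 / 5 * e ^ 2 + 5184 / 5 * p - 240) +
    e * (8192 / 5 * p ^ 3 - 57664 / 5 * p ^ 2 + 48 * p ^ 2 * w + 52864 / 5 * e ^ 2 * p ^ 2 +
      17792 / 5 * p - 2632 / 5 * p * w - 363136 / 5 * e ^ 2 * p + 592 - 376 * w + 36 * w ^ 2 -
      46656 / 5 * e ^ 2 + 17496 / 5 * e ^ 2 * w + 132864 / 5 * e ^ 4)

/-- The coefficients. -/
def cc : ℕ → ℚ → ℚ → ℚ → ℚ → ℚ
  | 0, _, _, _, _ => 1
  | 1, _, _, _, _ => 0
  | 2, _, _, U, V => U * V / 24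
  | 3, P, R, U, V => -(U * V) * (P + R) / 72
  | 4, P, R, U, V => U * V / 17280 * (12 * ((R ^ 2 + 1) * U + (P ^ 2 + 1) * V) +
      16 * (P * R) ^ 2 - 112 * (P * R) - 24 + 9 * (U * V) + 96 * (P + R) ^ 2)
  | 5, P, R, U, V => U * V / 8640 * ((2 * (P * R) + 4) * (R * U + P * V) -
      6 * (P + R) * ((R ^ 2 + 1) * U + (P ^ 2 + 1) * V) - 8 * (P + R) * (P * R) ^ 2 +
      56 * (P + R) * (P * R) + 8 * (P + R) - 3 * (P + R) * (U * V) - 24 * (P + R) ^ 3)
  | 6, P, R, U, V => U * V / 14515200 * E6 (P + R) (P * R) (U * V) (R * U + P * V)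
      ((R ^ 2 + 1) * U + (P ^ 2 + 1) * V)
  | 7, P, R, U, V => U * V / 14515200 * E7 (P + R) (P * R) (U * V) (U + V) (R * U + P * V)
      ((R ^ 2 + 1) * U + (P ^ 2 + 1) * V)
  | _, _, _, _, _ => 0

lemma poly_id (P R U V : ℚ) (n : ℕ) (hn : n ≤ 7) :
    ∑ p ∈ antidiagonal n, (-((1 - U) * R + (1 - V) * P) / 4) ^ p.1 / p.1.factorial *
      gg p.2 P R U V =
    (∑ p ∈ antidiagonal n, cc p.1 P R U V * coeff p.2 sinhcH) * (P * R) ^ n := by
  have s0 : coeff 0 sinhcH = 1 := by rw [sinhcH, coeff_mk]; norm_num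
  have s1 : coeff 1 sinhcH = 0 := by rw [sinhcH, coeff_mk]; norm_num
  have s2 : coeff 2 sinhcH = 1 / 24 := by
    rw [sinhcH, coeff_mk, if_pos (by decide)]; norm_num [Nat.factorial]
  have s3 : coeff 3 sinhcH = 0 := by rw [sinhcH, coeff_mk, if_neg (by decide)]
  have s4 : coeff 4 sinhcH = 1 / 1920 := by
    rw [sinhcH, coeff_mk, if_pos (by decide)]; norm_num [Nat.factorial]
  have s5 : coeff 5 sinhcH = 0 := by rw [sinhcH, coeff_mk, if_neg (by decide)]
  have s6 : coeff 6 sinhcH = 1 / 322560 := by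
    rw [sinhcH, coeff_mk, if_pos (by decide)]; norm_num [Nat.factorial]
  have s7 : coeff 7 sinhcH = 0 := by rw [sinhcH, coeff_mk, if_neg (by decide)]
  interval_cases n <;>
  · simp only [Finset.Nat.antidiagonal_succ, Finset.Nat.antidiagonal_zero, Finset.map_singleton,
      Finset.sum_cons, Finset.sum_singleton, Finset.map_cons,
      Function.Embedding.prodMap, Function.Embedding.coeFn_mk, Prod.map,
      Function.Embedding.refl_apply, Nat.succ_eq_add_one, Nat.factorial, pp, zero_add,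
      Nat.reduceAdd, Nat.reduceMul, s0, s1, s2, s3, s4, s5, s6, s7, cc, gg, mm, E6, E7,
      Finset.sum_range_succ, Finset.sum_range_zero, Nat.min_def, Nat.reduceLeDiff, if_true,
      if_false, Nat.reduceSub]
    push_cast
    ring

end Pool.Agent.H57.LMO
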