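import Mathlib
import Pool.Agent.H57.LMO.Coef

/-!
# The product `P * R` is determined by the coefficients
-/

set_option autoImplicit false

namespace Pool.Agent.H57.LMO

/-- The difference quotient of `E6`. -/
def Q6 (e w K p q m : ℚ) : ℚ :=
  1280 / 3 * (p ^ 2 + q ^ 2) * (p + q) + 5120 / 3 * (p ^ 2 + p * q + q ^ 2) +
    (320 * K - 3520 / 3) * (p + q) + 4608 - 1008 * w - 6912 * e ^ 2 - 1184 * K +
    240 * m ^ 2 * (p + q + 4) - 960 * e * m

/-- The difference quotient of `E7 + 9 / 5 * e * E6`. -/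
def Q7 (e w K p q m : ℚ) : ℚ :=
  (p + 2) * (q + 2) * m * (64 * (p + q) - 2464 / 3) - (960 - 32 * K - 24 * w) * m +
    112 * e * m ^ 2 * (p + q + 4) +
    e * (256 * (p ^ 2 + p * q + q ^ 2) - 1536 * (p + q) + 6592 / 5 + 5184 / 5 * K +
      168 / 5 * w + 6912 / 5 * e ^ 2 - 32 * w * (p + q))

lemma E6_sub (e w K p q m : ℚ) :
    E6 e p w ((q + 2) * m) (K - 4 / 3 * (p ^ 2 - 7 * p)) -
      E6 e q w ((p + 2) * m) (K - 4 / 3 * (q ^ 2 - 7 * q)) = (p - q) * Q6 e w K p q m := by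
  unfold E6 Q6; ring

lemma E7_sub (e w K p q m A A' : ℚ)
    (h : K - 4 / 3 * (p ^ 2 - 7 * p) = e * ((q + 2) * m) + (1 - p) * A)
    (h' : K - 4 / 3 * (q ^ 2 - 7 * q) = e * ((p + 2) * m) + (1 - q) * A') :
    E7 e p w A ((q + 2) * m) (K - 4 / 3 * (p ^ 2 - 7 * p)) -
      E7 e q w A' ((p + 2) * m) (K - 4 / 3 * (q ^ 2 - 7 * q)) =
    (p - q) * (Q7 e w K p q m - 9 / 5 * e * Q6 e w K p q m) := by
  unfold E7 Q7 Q6 E6
  linear_combination (-(e * (60 * w + 39648 / 5 * e ^ 2 + 5184 / 5 * p - 240))) * h +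
    (e * (60 * w + 39648 / 5 * e ^ 2 + 5184 / 5 * q - 240)) * h'

end Pool.Agent.H57.LMO
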