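import Mathlib
import Pool.Agent.H57.LMO.Arith

/-!
# Sign estimates for the difference quotients: opposite chiralities
-/

set_option autoImplicit false

namespace Pool.Agent.H57.LMO

lemma Q6_cross {e w K p n m : ℚ} (hp : 36 ≤ p) (hn : 36 ≤ n) (hd : p - n ≤ -10)
    (hK : 64 / 27 * p ^ 2 ≤ K) (hw : 0 ≤ w) : Q6 e w K p (-n) (-m) < 0 := by
  have a0 : 0 ≤ K := le_trans (by positivity) hK
  have a1 : 0 ≤ (-10 - (p - n)) * (p ^ 2 + n ^ 2) := mul_nonneg (by linarith) (by positivity)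
  have a2 : 0 ≤ (-10 - (p - n)) * (320 * K - 3520 / 3) :=
    mul_nonneg (by linarith) (by nlinarith)
  have a3 : 0 ≤ (-10 - (p - n)) * m ^ 2 := mul_nonneg (by linarith) (sq_nonneg m)
  have a4 : 0 ≤ (3 * m - e) ^ 2 := sq_nonneg _
  have a5 : 0 ≤ e ^ 2 := sq_nonneg e
  have a6 : 0 ≤ p * n := by positivity
  have a7 : 0 ≤ p ^ 2 - 36 * p := by nlinarith
  have a8 : 0 ≤ n ^ 2 - 36 * n := by nlinarith
  unfold Q6
  nlinarith

/-- The case `0 ≤ p - n`. -/
lemma Q7_cross_nonneg {e w K p n m : ℚ} (hp : 36 ≤ p) (hn : 36 ≤ n) (he : 0 < e) (hm : 0 < m)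
    (hd : 0 ≤ p - n) (hnp : 2 / 3 * p ≤ n) (hK : 22 / 9 * p ^ 2 ≤ K) (hw0 : 0 ≤ w)
    (hw : w < p ^ 2) (h1 : (n - 2) * m ≤ p * e) (h2 : e * w ≤ p * ((n - 2) * m)) :
    0 < Q7 e w K p (-n) (-m) := by
  have b1 : 17 / 18 * n ≤ n - 2 := by linarith
  have b2 : 17 / 27 * p ≤ n - 2 := by linarith
  have b3 : 17 / 27 * p * m ≤ p * e := (mul_le_mul_of_nonneg_right b2 hm.le).trans h1
  have b4 : m ≤ 27 / 17 * e := by
    have hp0 : 0 < p := by linarith
    have : p * m ≤ p * (27 / 17 * e) := by linarith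
    exact le_of_mul_le_mul_left this hp0
  have t1 : 0 ≤ (p + 2) * ((n - 2) * m) - e * w := by
    have : 0 ≤ 2 * ((n - 2) * m) := by
      have : 0 ≤ n - 2 := by linarith
      positivity
    nlinarith
  have t1' : 0 ≤ (p - n) * ((p + 2) * ((n - 2) * m) - e * w) := mul_nonneg hd t1
  have t1'' : 0 ≤ (p - n) * ((p + 2) * ((n - 2) * m)) := by
    have : 0 ≤ n - 2 := by linarith
    have : 0 ≤ p + 2 := by linarith
    positivity
  have t2 : (p + 2) * ((n - 2) * m) ≤ 19 / 18 * p * (p * e) := by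
    have h3 : p + 2 ≤ 19 / 18 * p := by linarith
    have h4 : 0 ≤ (n - 2) * m := by
      have : 0 ≤ n - 2 := by linarith
      positivity
    calc (p + 2) * ((n - 2) * m) ≤ 19 / 18 * p * ((n - 2) * m) :=
          mul_le_mul_of_nonneg_right h3 h4
      _ ≤ 19 / 18 * p * (p * e) := mul_le_mul_of_nonneg_left h1 (by positivity)
  have hK0 : 0 ≤ K := le_trans (by positivity) hK
  have t3 : (32 * K + 24 * w) * m ≤ (32 * K + 24 * w) * (27 / 17 * e) :=
    mul_le_mul_of_nonneg_left b4 (by positivity)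
  have t4 : 0 ≤ 112 * e * m ^ 2 * (p - n + 4) := by
    have : 0 ≤ p - n + 4 := by linarith
    positivity
  have t5 : 0 ≤ e * (p ^ 2 - p * n + n ^ 2) := by
    have : 0 ≤ p ^ 2 - p * n + n ^ 2 := by nlinarith [sq_nonneg (p - n)]
    positivity
  have t6 : e * (p - n) ≤ e * p := mul_le_mul_of_nonneg_left (by linarith) he.le
  have t7 : e * (36 * p) ≤ e * p ^ 2 := mul_le_mul_of_nonneg_left (by nlinarith) he.le
  have t8 : e * (22 / 9 * p ^ 2) ≤ e * K := mul_le_mul_of_nonneg_left hK he.le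
  have t9 : e * w ≤ e * p ^ 2 := mul_le_mul_of_nonneg_left hw.le he.le
  have t10 : 0 ≤ e * e ^ 2 := by positivity
  have t11 : 0 < e * p ^ 2 := by positivity
  have t12 : 0 ≤ e * w := by positivity
  have key : Q7 e w K p (-n) (-m) = 64 * ((p - n) * ((p + 2) * ((n - 2) * m))) -
      32 * ((p - n) * (e * w)) - 2464 / 3 * ((p + 2) * ((n - 2) * m)) + 960 * m -
      (32 * K + 24 * w) * m + 112 * e * m ^ 2 * (p - n + 4) +
      256 * (e * (p ^ 2 - p * n + n ^ 2)) - 1536 * (e * (p - n)) + 6592 / 5 * e +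
      5184 / 5 * (e * K) + 168 / 5 * (e * w) + 6912 / 5 * (e * e ^ 2) := by
    unfold Q7; ring
  rw [key]
  nlinarith

/-- The case `-10 < p - n < 0`. -/
lemma Q7_cross_neg {e w K p n m : ℚ} (hp : 36 ≤ p) (hn : 36 ≤ n) (he : 0 < e) (hm : 0 < m)
    (hd : p - n ≤ 0) (hd' : -10 ≤ p - n) (hK : 22 / 9 * p ^ 2 ≤ K) (hw0 : 0 ≤ w)
    (hw : w < p ^ 2) (h1 : (n - 2) * m ≤ p * e) :
    0 < Q7 e w K p (-n) (-m) := by
  have b2 : 17 / 18 * p ≤ n - 2 := by linarith
  have b3 : 17 / 18 * p * m ≤ p * e := (mul_le_mul_of_nonneg_right b2 hm.le).trans h1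
  have b4 : m ≤ 18 / 17 * e := by
    have hp0 : 0 < p := by linarith
    have : p * m ≤ p * (18 / 17 * e) := by linarith
    exact le_of_mul_le_mul_left this hp0
  have h4 : 0 ≤ (n - 2) * m := by
    have : 0 ≤ n - 2 := by linarith
    positivity
  have h5 : 0 ≤ (p + 2) * ((n - 2) * m) := by
    have : 0 ≤ p + 2 := by linarith
    positivity
  have t1 : 0 ≤ (p - n + 10) * ((p + 2) * ((n - 2) * m)) := mul_nonneg (by linarith) h5
  have t2 : (p + 2) * ((n - 2) * m) ≤ 19 / 18 * p * (p * e) := by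
    have h3 : p + 2 ≤ 19 / 18 * p := by linarith
    calc (p + 2) * ((n - 2) * m) ≤ 19 / 18 * p * ((n - 2) * m) :=
          mul_le_mul_of_nonneg_right h3 h4
      _ ≤ 19 / 18 * p * (p * e) := mul_le_mul_of_nonneg_left h1 (by positivity)
  have hK0 : 0 ≤ K := le_trans (by positivity) hK
  have t3 : (32 * K + 24 * w) * m ≤ (32 * K + 24 * w) * (18 / 17 * e) :=
    mul_le_mul_of_nonneg_left b4 (by positivity)
  have hm2 : m ^ 2 ≤ (18 / 17 * e) ^ 2 := pow_le_pow_left₀ hm.le b4 2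
  have t4 : 0 ≤ e * m ^ 2 * (p - n + 10) := by
    have : 0 ≤ p - n + 10 := by linarith
    positivity
  have t4' : e * m ^ 2 ≤ e * (18 / 17 * e) ^ 2 := mul_le_mul_of_nonneg_left hm2 he.le
  have t5 : 0 ≤ e * (p ^ 2 - p * n + n ^ 2) := by
    have : 0 ≤ p ^ 2 - p * n + n ^ 2 := by nlinarith [sq_nonneg (p - n)]
    positivity
  have t6 : 0 ≤ e * (n - p) := mul_nonneg he.le (by linarith)
  have t6' : 0 ≤ (n - p) * (e * w) := mul_nonneg (by linarith) (by positivity)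
  have t8 : e * (22 / 9 * p ^ 2) ≤ e * K := mul_le_mul_of_nonneg_left hK he.le
  have t9 : e * w ≤ e * p ^ 2 := mul_le_mul_of_nonneg_left hw.le he.le
  have t10 : 0 ≤ e * e ^ 2 := by positivity
  have t11 : 0 < e * p ^ 2 := by positivity
  have t12 : 0 ≤ e * w := by positivity
  have key : Q7 e w K p (-n) (-m) = 64 * ((p - n) * ((p + 2) * ((n - 2) * m))) +
      32 * ((n - p) * (e * w)) - 2464 / 3 * ((p + 2) * ((n - 2) * m)) + 960 * m -
      (32 * K + 24 * w) * m + 112 * (e * m ^ 2 * (p - n + 10)) - 672 * (e * m ^ 2) +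
      256 * (e * (p ^ 2 - p * n + n ^ 2)) + 1536 * (e * (n - p)) + 6592 / 5 * e +
      5184 / 5 * (e * K) + 168 / 5 * (e * w) + 6912 / 5 * (e * e ^ 2) := by
    unfold Q7; ring
  rw [key]
  nlinarith

end Pool.Agent.H57.LMO
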