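import Mathlib
import Pool.Agent.H57.LMO.Arith

/-!
# Sign estimates for the difference quotients
-/

set_option autoImplicit false

namespace Pool.Agent.H57.LMO

lemma Q6_pos {e w K p q m : ℚ} (hp : 36 ≤ p) (hq : 36 ≤ q) (he : 0 < e) (hm : 0 < m)
    (hK : 8 / 3 * p ^ 2 + 2 / 3 * e ^ 2 - 32 / 3 * p ≤ K) (hw : w < p ^ 2)
    (h1 : 2 / 3 * p * e ≤ (q + 2) * m) : 0 < Q6 e w K p q m := by
  have a1 : 24 * e ≤ (q + 2) * m := by nlinarith
  have a2 : 0 ≤ (p + 2) * m := by positivity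
  have a3 : 0 ≤ 240 * m ^ 2 * (p + q + 4) - 960 * e * m := by
    have : 240 * m ^ 2 * (p + q + 4) - 960 * e * m =
      240 * m * (((q + 2) * m - 24 * e) + (p + 2) * m + 20 * e) := by ring
    rw [this]
    have : 0 ≤ ((q + 2) * m - 24 * e) + (p + 2) * m + 20 * e := by linarith
    positivity
  have a4 : 0 ≤ p ^ 2 - 36 * p := by nlinarith
  have a5 : 64 / 27 * p ^ 2 + 2 / 3 * e ^ 2 ≤ K := by nlinarith
  have a6 : 0 ≤ e ^ 2 := sq_nonneg e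
  have a7 : 0 ≤ (p + q - 72) * (K - 64 / 27 * p ^ 2 - 2 / 3 * e ^ 2) :=
    mul_nonneg (by linarith) (by linarith)
  have a8 : 0 ≤ (p + q - 72) * (64 / 27 * p ^ 2 + 2 / 3 * e ^ 2) :=
    mul_nonneg (by linarith) (by positivity)
  have a9 : 0 ≤ 1280 / 3 * (p ^ 2 + q ^ 2) * (p + q) := by positivity
  have a10 : 0 ≤ p * q - 36 * q := by nlinarith
  have a11 : 0 ≤ q ^ 2 - 36 * q := by nlinarith
  unfold Q6
  nlinarith

lemma Q6_neg {e w K n k m : ℚ} (hn : 36 ≤ n) (hk : 36 ≤ k) (hK : 0 ≤ K) (hw : 0 ≤ w) :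
    Q6 e w K (-n) (-k) m < 0 := by
  have a1 : 0 ≤ (n + k - 68 - 4) * m ^ 2 := mul_nonneg (by linarith) (sq_nonneg m)
  have a2 : 0 ≤ (68 * m + 2 * e) ^ 2 := sq_nonneg _
  have a3 : 0 ≤ (n + k) * K := mul_nonneg (by linarith) hK
  have a4 : 0 ≤ (n + k - 72) * (n ^ 2 + k ^ 2) := mul_nonneg (by linarith) (by positivity)
  have a5 : 0 ≤ (n - k) ^ 2 := sq_nonneg _
  have a6 : 0 ≤ n ^ 2 - 36 * n := by nlinarith
  have a7 : 0 ≤ k ^ 2 - 36 * k := by nlinarith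
  have a8 : 0 ≤ e ^ 2 := sq_nonneg e
  unfold Q6
  nlinarith

end Pool.Agent.H57.LMO
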