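import Mathlib
import Pool.Agent.H57.LMO.Coef

/-!
# The coefficients of `tau` in degrees at most seven
-/

set_option autoImplicit false

open PowerSeries Finset

namespace Pool.Agent.H57.LMO

lemma conv_eq {f g : ℕ → ℚ} {s : ℕ → ℚ} (hs : s 0 = 1) {N : ℕ}
    (h : ∀ n ≤ N, ∑ p ∈ antidiagonal n, f p.1 * s p.2 = ∑ p ∈ antidiagonal n, g p.1 * s p.2) :
    ∀ n ≤ N, f n = g n := by
  intro n
  induction n using Nat.strong_induction_on with
  | _ n ih =>
    intro hn
    have h1 := h n hn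
    have hsplit : ∀ F : ℕ × ℕ → ℚ, ∑ p ∈ antidiagonal n, F p =
        F (n, 0) + ∑ p ∈ (antidiagonal n).erase (n, 0), F p := fun F =>
      (Finset.add_sum_erase _ _ (by simp)).symm
    rw [hsplit (fun p => f p.1 * s p.2), hsplit (fun p => g p.1 * s p.2)] at h1
    have h2 : ∑ p ∈ (antidiagonal n).erase (n, 0), f p.1 * s p.2 =
        ∑ p ∈ (antidiagonal n).erase (n, 0), g p.1 * s p.2 := by
      refine Finset.sum_congr rfl fun p hp => ?_
      obtain ⟨hp1, hp2⟩ := Finset.mem_erase.1 hp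
      have hp3 : p.1 + p.2 = n := by simpa using hp2
      have hp4 : p.2 ≠ 0 := by
        rintro h0
        apply hp1
        ext
        · simp; omega
        · simp [h0]
      rw [ih p.1 (by omega) (by omega)]
    rw [h2, hs] at h1
    simpa using h1

theorem coeff_tau (a b c d : ℚ) (ha : a ≠ 0) (hb : b ≠ 0) (hc : c ≠ 0) (hd : d ≠ 0) (n : ℕ)
    (hn : n ≤ 7) :
    coeff n (tau a b c d) =
      cc n (a * b) (c * d) ((a ^ 2 - 1) * (b ^ 2 - 1)) ((c ^ 2 - 1) * (d ^ 2 - 1)) := by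
  have h0 : (fun n => coeff n sinhcH) 0 = 1 := by
    show coeff 0 sinhcH = 1
    rw [sinhcH, coeff_mk]; norm_num
  refine conv_eq (f := fun n => coeff n (tau a b c d))
    (g := fun n => cc n (a * b) (c * d) ((a ^ 2 - 1) * (b ^ 2 - 1)) ((c ^ 2 - 1) * (d ^ 2 - 1)))
    (s := fun n => coeff n sinhcH) h0 (N := 7) ?_ n hn
  intro m hm
  have h1 := coeff_exp_gauss a b c d ha hb hc hd m hm
  rw [poly_id _ _ _ _ m hm] at h1
  have hne : (a * b * (c * d)) ^ m ≠ 0 :=
    pow_ne_zero _ (mul_ne_zero (mul_ne_zero ha hb) (mul_ne_zero hc hd))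
  have h2 := mul_right_cancel₀ hne h1
  rw [coeff_mul] at h2
  exact h2

end Pool.Agent.H57.LMO
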