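import Mathlib
import Pool.Agent.H57.LMO.Ineq
import Pool.Agent.H57.LMO.Cross

/-!
# The coefficients determine the product `P * R`
-/

set_option autoImplicit false

namespace Pool.Agent.H57.LMO

/-- The inequalities satisfied by the invariants of two nontrivial torus knots. -/
structure Sys (P R U V : ℚ) : Prop where
  hP : 36 ≤ P ^ 2
  hR : 36 ≤ R ^ 2
  hU : 2 / 3 * P ^ 2 ≤ U
  hU' : U < P ^ 2
  hV : 2 / 3 * R ^ 2 ≤ V
  hV' : V < R ^ 2

/-- The consequences of the equality of the coefficients. -/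
structure Inv (P R U V P' R' U' V' : ℚ) : Prop where
  w : U * V = U' * V'
  e : P + R = P' + R'
  K : (R ^ 2 + 1) * U + (P ^ 2 + 1) * V + 4 / 3 * ((P * R) ^ 2 - 7 * (P * R)) =
    (R' ^ 2 + 1) * U' + (P' ^ 2 + 1) * V' + 4 / 3 * ((P' * R') ^ 2 - 7 * (P' * R'))
  A : (P * R + 2) * (R * U + P * V) = (P' * R' + 2) * (R' * U' + P' * V')
  s6 : E6 (P + R) (P * R) (U * V) (R * U + P * V) ((R ^ 2 + 1) * U + (P ^ 2 + 1) * V) =
    E6 (P' + R') (P' * R') (U' * V') (R' * U' + P' * V') ((R' ^ 2 + 1) * U' + (P' ^ 2 + 1) * V')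
  s7 : E7 (P + R) (P * R) (U * V) (U + V) (R * U + P * V)
      ((R ^ 2 + 1) * U + (P ^ 2 + 1) * V) =
    E7 (P' + R') (P' * R') (U' * V') (U' + V') (R' * U' + P' * V')
      ((R' ^ 2 + 1) * U' + (P' ^ 2 + 1) * V')

lemma Sys.pos {P R U V : ℚ} (h : Sys P R U V) : 0 < U ∧ 0 < V := by
  obtain ⟨h1, h2, h3, h4, h5, h6⟩ := h
  constructor <;> linarith

lemma Sys.neg {P R U V : ℚ} (h : Sys P R U V) : Sys (-P) (-R) U V := by
  obtain ⟨h1, h2, h3, h4, h5, h6⟩ := h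
  constructor <;> simpa

lemma Sys.symm {P R U V : ℚ} (h : Sys P R U V) : Sys R P V U := by
  obtain ⟨h1, h2, h3, h4, h5, h6⟩ := h
  constructor <;> assumption

lemma Inv.symm {P R U V P' R' U' V' : ℚ} (h : Inv P R U V P' R' U' V') :
    Inv P' R' U' V' P R U V := by
  obtain ⟨h1, h2, h3, h4, h5, h6⟩ := h
  constructor
  · exact h1.symm
  · exact h2.symm
  · exact h3.symm
  · exact h4.symm
  · exact h5.symm
  · exact h6.symm

lemma Inv.neg {P R U V P' R' U' V' : ℚ} (h : Inv P R U V P' R' U' V') :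
    Inv (-P) (-R) U V (-P') (-R') U' V' := by
  obtain ⟨h1, h2, h3, h4, h5, h6⟩ := h
  have e6 : ∀ P R U V : ℚ, E6 (-P + -R) (-P * -R) (U * V) (-R * U + -P * V)
      (((-R) ^ 2 + 1) * U + ((-P) ^ 2 + 1) * V) =
      E6 (P + R) (P * R) (U * V) (R * U + P * V) ((R ^ 2 + 1) * U + (P ^ 2 + 1) * V) := by
    intro P R U V; unfold E6; ring
  have e7 : ∀ P R U V : ℚ, E7 (-P + -R) (-P * -R) (U * V) (U + V) (-R * U + -P * V)
      (((-R) ^ 2 + 1) * U + ((-P) ^ 2 + 1) * V) =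
      -E7 (P + R) (P * R) (U * V) (U + V) (R * U + P * V)
        ((R ^ 2 + 1) * U + (P ^ 2 + 1) * V) := by
    intro P R U V; unfold E7 E6; ring
  constructor
  · exact h1
  · linarith
  · linear_combination h3
  · linear_combination -h4
  · rw [e6, e6, h5]
  · rw [e7, e7, h6]

lemma inv_of_cc {P R U V P' R' U' V' : ℚ} (hs : Sys P R U V)
    (h : ∀ n ≤ 7, cc n P R U V = cc n P' R' U' V') : Inv P R U V P' R' U' V' := by
  obtain ⟨hU, hV⟩ := hs.pos
  have c2 := h 2 (by norm_num)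
  have c3 := h 3 (by norm_num)
  have c4 := h 4 (by norm_num)
  have c5 := h 5 (by norm_num)
  have c6 := h 6 (by norm_num)
  have c7 := h 7 (by norm_num)
  simp only [cc] at c2 c3 c4 c5 c6 c7
  have hw : U * V = U' * V' := by linarith
  have hw0 : U * V ≠ 0 := (mul_pos hU hV).ne'
  have he : P + R = P' + R' := by
    rw [← hw] at c3
    have : (U * V) * (P + R) = (U * V) * (P' + R') := by linarith
    exact mul_left_cancel₀ hw0 this
  rw [← hw] at c4 c5 c6 c7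
  rw [← he] at c4 c5
  have hK : (R ^ 2 + 1) * U + (P ^ 2 + 1) * V + 4 / 3 * ((P * R) ^ 2 - 7 * (P * R)) =
      (R' ^ 2 + 1) * U' + (P' ^ 2 + 1) * V' + 4 / 3 * ((P' * R') ^ 2 - 7 * (P' * R')) := by
    have h1 := mul_left_cancel₀ (div_ne_zero hw0 (by norm_num)) c4
    linarith
  have h5 := mul_left_cancel₀ (div_ne_zero hw0 (by norm_num)) c5
  have h6 := mul_left_cancel₀ (div_ne_zero hw0 (by norm_num)) c6
  have h7 := mul_left_cancel₀ (div_ne_zero hw0 (by norm_num)) c7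
  refine ⟨hw, he, hK, ?_, ?_, ?_⟩
  · linear_combination 1 / 2 * h5 + 3 * (P + R) * hK
  · rw [← hw]; exact h6
  · rw [← hw]; exact h7

section facts

variable {P R U V : ℚ}

lemma Sys.K_ge (h : Sys P R U V) :
    8 / 3 * (P * R) ^ 2 + 2 / 3 * (P + R) ^ 2 - 32 / 3 * (P * R) ≤
      (R ^ 2 + 1) * U + (P ^ 2 + 1) * V + 4 / 3 * ((P * R) ^ 2 - 7 * (P * R)) := by
  obtain ⟨h1, h2, h3, h4, h5, h6⟩ := h
  have a1 : (R ^ 2 + 1) * (2 / 3 * P ^ 2) ≤ (R ^ 2 + 1) * U :=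
    mul_le_mul_of_nonneg_left h3 (by positivity)
  have a2 : (P ^ 2 + 1) * (2 / 3 * R ^ 2) ≤ (P ^ 2 + 1) * V :=
    mul_le_mul_of_nonneg_left h5 (by positivity)
  linarith

lemma Sys.w_lt (h : Sys P R U V) : U * V < (P * R) ^ 2 := by
  obtain ⟨hU, hV⟩ := h.pos
  obtain ⟨h1, h2, h3, h4, h5, h6⟩ := h
  rw [mul_pow]
  exact mul_lt_mul'' h4 h6 hU.le hV.le

lemma Sys.w_ge (h : Sys P R U V) : 4 / 9 * (P * R) ^ 2 ≤ U * V := by
  obtain ⟨hU, hV⟩ := h.pos
  obtain ⟨h1, h2, h3, h4, h5, h6⟩ := h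
  calc 4 / 9 * (P * R) ^ 2 = (2 / 3 * P ^ 2) * (2 / 3 * R ^ 2) := by ring
    _ ≤ U * V := mul_le_mul h3 h5 (by positivity) hU.le

lemma Sys.p_sq (h : Sys P R U V) : 1296 ≤ (P * R) ^ 2 := by
  obtain ⟨h1, h2, h3, h4, h5, h6⟩ := h
  rw [mul_pow]
  nlinarith

lemma Sys.p_ne (h : Sys P R U V) : P * R ≠ 0 := by
  intro h0
  have := h.p_sq
  rw [h0] at this
  norm_num at this

lemma Sys.p_ge (h : Sys P R U V) (hp : 0 < P * R) : 36 ≤ P * R := by
  have := h.p_sq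
  nlinarith

lemma Sys.p_le (h : Sys P R U V) (hp : P * R < 0) : P * R ≤ -36 := by
  have := h.p_sq
  nlinarith

lemma pos_of {P R : ℚ} (hp : 0 < P * R) (he : 0 ≤ P + R) : 0 < P ∧ 0 < R := by
  rcases (pos_and_pos_or_neg_and_neg_of_mul_pos hp) with h | h
  · exact h
  · linarith [h.1, h.2]

lemma Sys.A_ge (h : Sys P R U V) (hP : 0 < P) (hR : 0 < R) :
    2 / 3 * (P * R) * (P + R) ≤ R * U + P * V := by
  obtain ⟨h1, h2, h3, h4, h5, h6⟩ := h
  have a1 := mul_le_mul_of_nonneg_left h3 hR.le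
  have a2 := mul_le_mul_of_nonneg_left h5 hP.le
  linarith

lemma Sys.A_le (h : Sys P R U V) (hP : 0 < P) (hR : 0 < R) :
    R * U + P * V ≤ (P * R) * (P + R) := by
  obtain ⟨h1, h2, h3, h4, h5, h6⟩ := h
  have a1 := mul_le_mul_of_nonneg_left h4.le hR.le
  have a2 := mul_le_mul_of_nonneg_left h6.le hP.le
  linarith

lemma Sys.ew_le (h : Sys P R U V) (hP : 0 < P) (hR : 0 < R) :
    (P + R) * (U * V) ≤ (P * R) * (R * U + P * V) := by
  obtain ⟨hU, hV⟩ := h.pos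
  obtain ⟨h1, h2, h3, h4, h5, h6⟩ := h
  have a1 := mul_le_mul_of_nonneg_left h4.le (mul_pos hR hV).le
  have a2 := mul_le_mul_of_nonneg_left h6.le (mul_pos hP hU).le
  nlinarith

end facts

/-- The step common to all cases. -/
lemma exists_m {P R U V P' R' U' V' : ℚ} (h : Inv P R U V P' R' U' V')
    (hs' : Sys P' R' U' V') (hne : P * R ≠ P' * R') :
    ∃ m K : ℚ, R * U + P * V = (P' * R' + 2) * m ∧ R' * U' + P' * V' = (P * R + 2) * m ∧
      K = (R ^ 2 + 1) * U + (P ^ 2 + 1) * V + 4 / 3 * ((P * R) ^ 2 - 7 * (P * R)) ∧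
      K = (R' ^ 2 + 1) * U' + (P' ^ 2 + 1) * V' + 4 / 3 * ((P' * R') ^ 2 - 7 * (P' * R')) ∧
      Q6 (P + R) (U * V) K (P * R) (P' * R') m = 0 ∧
      Q7 (P + R) (U * V) K (P * R) (P' * R') m = 0 := by
  have hq : P' * R' + 2 ≠ 0 := by
    intro h0
    have h1 : P' * R' = -2 := by linarith
    have := hs'.p_sq
    rw [h1] at this
    norm_num at this
  set p := P * R with hp
  set q := P' * R' with hqd
  set K := (R ^ 2 + 1) * U + (P ^ 2 + 1) * V + 4 / 3 * (p ^ 2 - 7 * p) with hK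
  refine ⟨(R * U + P * V) / (q + 2), K, ?_, ?_, rfl, h.K, ?_, ?_⟩
  · field_simp
  · have := h.A
    field_simp
    linear_combination -this
  all_goals
    have hA : R * U + P * V = (q + 2) * ((R * U + P * V) / (q + 2)) := by field_simp
    have hA' : R' * U' + P' * V' = (p + 2) * ((R * U + P * V) / (q + 2)) := by
      have := h.A
      field_simp
      linear_combination -this
    have hL : (R ^ 2 + 1) * U + (P ^ 2 + 1) * V = K - 4 / 3 * (p ^ 2 - 7 * p) := by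
      rw [hK]; ring
    have hL' : (R' ^ 2 + 1) * U' + (P' ^ 2 + 1) * V' = K - 4 / 3 * (q ^ 2 - 7 * q) := by
      have hk := h.K
      rw [← hp, ← hqd, ← hK] at hk
      rw [hk]; ring
    have hA0 : (R ^ 2 + 1) * U + (P ^ 2 + 1) * V = (P + R) * (R * U + P * V) +
        (1 - p) * (U + V) := by rw [hp]; ring
    have hA0' : (R' ^ 2 + 1) * U' + (P' ^ 2 + 1) * V' = (P + R) * (R' * U' + P' * V') +
        (1 - q) * (U' + V') := by rw [h.e, hqd]; ring
    generalize (R * U + P * V) / (q + 2) = m at *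
    have h6 := h.s6
    rw [← h.e, ← h.w, hL, hL', hA, hA', ← sub_eq_zero, E6_sub] at h6
    have h6' := (mul_eq_zero.1 h6).resolve_left (sub_ne_zero.2 hne)
    have h7 := h.s7
    rw [hL, hA] at hA0
    rw [hL', hA'] at hA0'
    rw [← h.e, ← h.w, hL, hL', hA, hA', ← sub_eq_zero, E7_sub _ _ _ _ _ _ _ _ hA0 hA0'] at h7
    have h7' := (mul_eq_zero.1 h7).resolve_left (sub_ne_zero.2 hne)
    rw [h6', mul_zero, sub_zero] at h7'
    assumption

end Pool.Agent.H57.LMO
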