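import Mathlib
import Pool.Agent.H57.LMO.Sys

/-!
# The coefficients determine the pair of torus knots
-/

set_option autoImplicit false

namespace Pool.Agent.H57.LMO

lemma cross {P R U V P' R' U' V' : ℚ} (h : Inv P R U V P' R' U' V') (hs : Sys P R U V)
    (hs' : Sys P' R' U' V') (he : 0 ≤ P + R) (hp : 0 < P * R) (hq : P' * R' < 0) : False := by
  obtain ⟨m, K, hA, hA', hK, hK', h6, h7⟩ := exists_m h hs' (by linarith : P' * R' < P * R).ne'
  obtain ⟨hP, hR⟩ := pos_of hp he
  have hp36 := hs.p_ge hp
  have hq36 := hs'.p_le hq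
  have kge := hs.K_ge
  rw [← hK] at kge
  have hw := hs.w_lt
  have hw' := hs'.w_lt
  have hwg := hs.w_ge
  rw [← h.w] at hw'
  have hAge := hs.A_ge hP hR
  have hAle := hs.A_le hP hR
  have hew := hs.ew_le hP hR
  have hepos : 0 < P + R := by linarith
  have he4 : 4 * (P * R) ≤ (P + R) ^ 2 := by nlinarith [sq_nonneg (P - R)]
  obtain ⟨hU, hV⟩ := hs.pos
  have hw0 : 0 < U * V := mul_pos hU hV
  rw [hA] at hAge hAle hew
  obtain ⟨n, hn⟩ : ∃ n, n = -(P' * R') := ⟨_, rfl⟩
  have hqn : P' * R' = -n := by linarith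
  rw [hqn] at hw' hq36 hAge hAle hew h6 h7
  generalize P + R = e at *
  generalize P * R = p at *
  generalize U * V = w at *
  obtain ⟨k, rfl⟩ : ∃ k, m = -k := ⟨-m, by ring⟩
  have hn36 : 36 ≤ n := by linarith
  have hAk : (-n + 2) * -k = (n - 2) * k := by ring
  rw [hAk] at hAge hAle hew
  have hk : 0 < k := by
    have h1 : 0 < (n - 2) * k := lt_of_lt_of_le (by positivity) hAge
    exact pos_of_mul_pos_right h1 (by linarith)
  have hKg : 22 / 9 * p ^ 2 ≤ K := by nlinarith
  have hKg' : 64 / 27 * p ^ 2 ≤ K := by nlinarith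
  have hnp : 2 / 3 * p < n := by nlinarith
  by_cases hd : p - n ≤ -10
  · exact absurd h6 (Q6_cross hp36 hn36 hd hKg' hw0.le).ne
  · rw [not_le] at hd
    rcases le_total 0 (p - n) with hd' | hd'
    · exact absurd h7 (Q7_cross_nonneg hp36 hn36 hepos hk hd' hnp.le hKg hw0.le hw hAle hew).ne'
    · exact absurd h7 (Q7_cross_neg hp36 hn36 hepos hk hd' hd.le hKg hw0.le hw hAle).ne'

lemma both_pos {P R U V P' R' U' V' : ℚ} (h : Inv P R U V P' R' U' V') (hs : Sys P R U V)
    (hs' : Sys P' R' U' V') (he : 0 ≤ P + R) (hp : 0 < P * R) (hq : 0 < P' * R') :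
    P * R = P' * R' := by
  by_contra hne
  obtain ⟨m, K, hA, hA', hK, hK', h6, h7⟩ := exists_m h hs' hne
  obtain ⟨hP, hR⟩ := pos_of hp he
  have hp36 := hs.p_ge hp
  have hq36 := hs'.p_ge hq
  have kge := hs.K_ge
  rw [← hK] at kge
  have hw := hs.w_lt
  have hAge := hs.A_ge hP hR
  have hepos : 0 < P + R := by linarith
  rw [hA] at hAge
  have hm : 0 < m := by
    have h1 : 0 < (P' * R' + 2) * m := lt_of_lt_of_le (by positivity) hAge
    exact pos_of_mul_pos_right h1 (by linarith)
  exact absurd h6 (Q6_pos hp36 hq36 hepos hm kge hw hAge).ne'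

lemma both_neg {P R U V P' R' U' V' : ℚ} (h : Inv P R U V P' R' U' V') (hs : Sys P R U V)
    (hs' : Sys P' R' U' V') (hp : P * R < 0) (hq : P' * R' < 0) : P * R = P' * R' := by
  by_contra hne
  obtain ⟨m, K, hA, hA', hK, hK', h6, h7⟩ := exists_m h hs' hne
  have hp36 := hs.p_le hp
  have hq36 := hs'.p_le hq
  have kge := hs.K_ge
  rw [← hK] at kge
  obtain ⟨hU, hV⟩ := hs.pos
  have hw0 : 0 < U * V := mul_pos hU hV
  have hK0 : 0 ≤ K := by nlinarith [sq_nonneg (P * R), sq_nonneg (P + R)]
  have h6' := Q6_neg (e := P + R) (w := U * V) (K := K) (n := -(P * R)) (k := -(P' * R'))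
    (m := m) (by linarith) (by linarith) hK0 hw0.le
  rw [neg_neg, neg_neg] at h6'
  exact absurd h6 h6'.ne

lemma pi_eq_of_nonneg {P R U V P' R' U' V' : ℚ} (h : Inv P R U V P' R' U' V')
    (hs : Sys P R U V) (hs' : Sys P' R' U' V') (he : 0 ≤ P + R) : P * R = P' * R' := by
  rcases lt_or_gt_of_ne hs.p_ne with hp | hp <;> rcases lt_or_gt_of_ne hs'.p_ne with hq | hq
  · exact both_neg h hs hs' hp hq
  · exact (cross h.symm hs' hs (h.e ▸ he) hq hp).elim
  · exact (cross h hs hs' he hp hq).elim
  · exact both_pos h hs hs' he hp hq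

theorem pi_eq {P R U V P' R' U' V' : ℚ} (h : Inv P R U V P' R' U' V')
    (hs : Sys P R U V) (hs' : Sys P' R' U' V') : P * R = P' * R' := by
  rcases le_total 0 (P + R) with he | he
  · exact pi_eq_of_nonneg h hs hs' he
  · have := pi_eq_of_nonneg h.neg hs.neg hs'.neg (by linarith)
    simpa using this

/-- The coefficients determine the unordered pair of the invariants of the two torus knots. -/
theorem pair_eq {P R U V P' R' U' V' : ℚ} (h : Inv P R U V P' R' U' V')
    (hs : Sys P R U V) (hs' : Sys P' R' U' V') :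
    (P = P' ∧ U = U' ∧ R = R' ∧ V = V') ∨ (P = R' ∧ U = V' ∧ R = P' ∧ V = U') := by
  have hp := pi_eq h hs hs'
  have he := h.e
  have hw := h.w
  have hp36 := hs.p_sq
  have hA : R * U + P * V = R' * U' + P' * V' := by
    have h1 := h.A
    rw [← hp] at h1
    refine mul_left_cancel₀ ?_ h1
    intro h0
    have h2 : P * R = -2 := by linarith
    rw [h2] at hp36
    norm_num at hp36
  have hA0 : U + V = U' + V' := by
    have h1 := h.K
    have h2 : (1 - P * R) * (U + V) = (1 - P * R) * (U' + V') := by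
      rw [← hp] at h1
      have h3 : (R' ^ 2 + 1) * U' + (P' ^ 2 + 1) * V' =
        (P' + R') * (R' * U' + P' * V') + (1 - P' * R') * (U' + V') := by ring
      rw [h3, ← he, ← hp, ← hA] at h1
      linear_combination h1
    refine mul_left_cancel₀ ?_ h2
    intro h0
    have h2 : P * R = 1 := by linarith
    rw [h2] at hp36
    norm_num at hp36
  have hc : (P - P') * (P - R') = 0 := by
    have : P' + R' = P + R := he.symm
    have h1 : P' * R' = P * R := hp.symm
    linear_combination -P * this + h1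
  rcases mul_eq_zero.1 hc with hc | hc
  · have hPP : P = P' := by linarith
    have hRR : R = R' := by linarith
    subst hPP hRR
    have h1 : (R - P) * (U - U') = 0 := by linear_combination hA - P * hA0
    rcases mul_eq_zero.1 h1 with h2 | h2
    · have hRP : R = P := by linarith
      subst hRP
      have h3 : (U - U') * (U - V') = 0 := by linear_combination U * hA0 - hw
      rcases mul_eq_zero.1 h3 with h4 | h4
      · left; refine ⟨rfl, by linarith, rfl, by linarith⟩
      · right; refine ⟨rfl, by linarith, rfl, by linarith⟩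
    · left; exact ⟨rfl, by linarith, rfl, by linarith⟩
  · have hPP : P = R' := by linarith
    have hRR : R = P' := by linarith
    subst hPP hRR
    have h1 : (R - P) * (U - V') = 0 := by linear_combination hA - P * hA0
    rcases mul_eq_zero.1 h1 with h2 | h2
    · have hRP : R = P := by linarith
      subst hRP
      have h3 : (U - U') * (U - V') = 0 := by linear_combination U * hA0 - hw
      rcases mul_eq_zero.1 h3 with h4 | h4
      · left; refine ⟨rfl, by linarith, rfl, by linarith⟩
      · right; refine ⟨rfl, by linarith, rfl, by linarith⟩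
    · right; exact ⟨rfl, by linarith, rfl, by linarith⟩

end Pool.Agent.H57.LMO
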