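import Mathlib
import Pool.Agent.H57.LMO.Uniq
import Pool.Agent.H57.LMO.Tau

/-!
# Torus knots
-/

set_option autoImplicit false

open PowerSeries Finset

namespace Pool.Agent.H57.LMO

lemma sinhc_neg (a : ℚ) : sinhc (-a) = sinhc a := by
  ext n
  rw [coeff_sinhc, coeff_sinhc, mul_neg, Even.neg_pow (even_two_mul n)]

lemma psi_neg (a b : ℚ) : psi (-a) (-b) = psi a b := by rw [psi, psi, sinhc_neg, sinhc_neg]

lemma psi_comm (a b : ℚ) : psi b a = psi a b := by rw [psi, psi, mul_comm (sinhc b)]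

lemma kap_neg (a b c d : ℚ) : kap (-a) (-b) c d = kap a b c d := by
  rw [kap, kap]; ring

lemma kap_comm (a b c d : ℚ) : kap b a c d = kap a b c d := by rw [kap, kap]; ring

lemma kap_swap (a b c d : ℚ) : kap c d a b = kap a b c d := by rw [kap, kap]; ring

lemma tau_neg (a b c d : ℚ) : tau (-a) (-b) c d = tau a b c d := by
  rw [tau, tau, psi_neg, kap_neg, neg_mul_neg]

lemma tau_comm (a b c d : ℚ) : tau b a c d = tau a b c d := by
  rw [tau, tau, psi_comm, kap_comm, mul_comm b a]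

lemma mom_swap (A B C : ℚ) (i j : ℕ) : mom C B A j i = mom A B C i j := by
  rw [mom, mom, min_comm j i]
  refine Finset.sum_congr rfl fun e _ => ?_
  ring

lemma gauss_swap (A B C : ℚ) (f g : ℚ⟦X⟧) : gauss C B A g f = gauss A B C f g := by
  ext n
  rw [gauss, gauss, coeff_mk, coeff_mk, ← Finset.Nat.sum_antidiagonal_swap]
  refine Finset.sum_congr rfl fun p _ => ?_
  simp only [Prod.fst_swap, Prod.snd_swap, mom_swap]
  ring

lemma tau_swap (a b c d : ℚ) : tau c d a b = tau a b c d := by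
  rw [tau, tau, kap_swap, mul_comm (c * d) (a * b), gauss_swap]

lemma tau_same {a b a' b' : ℤ} (h : SameKnot a b a' b') (c d : ℚ) :
    tau (a' : ℚ) b' c d = tau a b c d := by
  rcases h with ⟨rfl, rfl⟩ | ⟨rfl, rfl⟩ | ⟨rfl, rfl⟩ | ⟨rfl, rfl⟩
  · rfl
  · exact tau_comm _ _ _ _
  · push_cast; exact tau_neg _ _ _ _
  · push_cast; rw [tau_neg]; exact tau_comm _ _ _ _

lemma tau_same' {a b c d a' b' c' d' : ℤ} (h : SameKnot a b a' b') (h' : SameKnot c d c' d') :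
    tau (a' : ℚ) b' c' d' = tau a b c d := by
  rw [tau_same h, tau_swap, tau_same h', tau_swap]

lemma tau_samePair {a b c d a' b' c' d' : ℤ} (h : SamePair a b c d a' b' c' d') :
    tau (a : ℚ) b c d = tau (a' : ℚ) b' c' d' := by
  rcases h with ⟨h1, h2⟩ | ⟨h1, h2⟩
  · rw [tau_same' h1 h2]
  · rw [← tau_swap (a' : ℚ), tau_same' h1 h2]

lemma abs_two_le {a b : ℤ} (ha : a ≠ 0) (hb : b ≠ 0) (h : ¬ Trivial a b) : 2 ≤ |a| ∧ 2 ≤ |b| := by
  rw [Trivial, not_or] at h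
  have h1 := abs_pos.2 ha
  have h2 := abs_pos.2 hb
  omega

lemma knot_ineq {a b : ℤ} (hab : IsCoprime a b) (ha : 2 ≤ |a|) (hb : 2 ≤ |b|) :
    36 ≤ ((a : ℚ) * b) ^ 2 ∧ 2 / 3 * ((a : ℚ) * b) ^ 2 ≤ ((a : ℚ) ^ 2 - 1) * ((b : ℚ) ^ 2 - 1) ∧
      ((a : ℚ) ^ 2 - 1) * ((b : ℚ) ^ 2 - 1) < ((a : ℚ) * b) ^ 2 := by
  have ha4 : 4 ≤ a ^ 2 := by rw [← sq_abs]; nlinarith
  have hb4 : 4 ≤ b ^ 2 := by rw [← sq_abs]; nlinarith
  have h9 : 9 ≤ a ^ 2 ∨ 9 ≤ b ^ 2 := by
    by_contra hcon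
    rw [not_or, not_le, not_le] at hcon
    have h1 : |a| < 3 := by
      by_contra h; rw [not_lt] at h
      have : 9 ≤ a ^ 2 := by rw [← sq_abs]; nlinarith
      omega
    have h2 : |b| < 3 := by
      by_contra h; rw [not_lt] at h
      have : 9 ≤ b ^ 2 := by rw [← sq_abs]; nlinarith
      omega
    have h3 : |a| = 2 := by omega
    have h4 : |b| = 2 := by omega
    have h5 : IsCoprime |a| |b| := (IsCoprime.abs_abs_iff a b).2 hab
    rw [h3, h4] at h5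
    have := h5.isUnit_of_dvd' (dvd_refl 2) (dvd_refl 2)
    rw [Int.isUnit_iff] at this
    omega
  have hx : (4 : ℚ) ≤ (a : ℚ) ^ 2 := by exact_mod_cast ha4
  have hy : (4 : ℚ) ≤ (b : ℚ) ^ 2 := by exact_mod_cast hb4
  have hz : (9 : ℚ) ≤ (a : ℚ) ^ 2 ∨ (9 : ℚ) ≤ (b : ℚ) ^ 2 := by
    rcases h9 with h | h
    · left; exact_mod_cast h
    · right; exact_mod_cast h
  rw [mul_pow]
  generalize (a : ℚ) ^ 2 = x at *
  generalize (b : ℚ) ^ 2 = y at *
  rcases hz with hz | hz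
  · refine ⟨by nlinarith, by nlinarith, by nlinarith⟩
  · refine ⟨by nlinarith, by nlinarith, by nlinarith⟩

lemma sys_knots {a b c d : ℤ} (hab : IsCoprime a b) (ha : 2 ≤ |a|) (hb : 2 ≤ |b|)
    (hcd : IsCoprime c d) (hc : 2 ≤ |c|) (hd : 2 ≤ |d|) :
    Sys ((a : ℚ) * b) ((c : ℚ) * d) (((a : ℚ) ^ 2 - 1) * ((b : ℚ) ^ 2 - 1))
      (((c : ℚ) ^ 2 - 1) * ((d : ℚ) ^ 2 - 1)) := by
  obtain ⟨h1, h2, h3⟩ := knot_ineq hab ha hb
  obtain ⟨h4, h5, h6⟩ := knot_ineq hcd hc hd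
  exact ⟨h1, h4, h2, h3, h5, h6⟩

/-- `P` and `U` determine the torus knot. -/
lemma same_of_eq {a b a' b' : ℤ} (ha : a ≠ 0)
    (hP : (a : ℚ) * b = a' * b')
    (hU : ((a : ℚ) ^ 2 - 1) * ((b : ℚ) ^ 2 - 1) = ((a' : ℚ) ^ 2 - 1) * ((b' : ℚ) ^ 2 - 1)) :
    SameKnot a b a' b' := by
  have hP' : a * b = a' * b' := by exact_mod_cast hP
  have hU' : (a ^ 2 - 1) * (b ^ 2 - 1) = (a' ^ 2 - 1) * (b' ^ 2 - 1) := by exact_mod_cast hU
  have h1 : (a' - a) * (a' + a) * ((b' - a) * (b' + a)) = 0 := by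
    linear_combination -a ^ 2 * hU' - (a * b + a' * b') * (1 - a ^ 2) * hP'
  rcases mul_eq_zero.1 h1 with h | h <;> rcases mul_eq_zero.1 h with h | h
  · have h2 : a' = a := by linarith
    subst h2
    left
    exact ⟨rfl, (mul_left_cancel₀ ha hP').symm⟩
  · have h2 : a' = -a := by linarith
    subst h2
    right; right; left
    refine ⟨rfl, ?_⟩
    have h3 : a * b' = a * (-b) := by linarith
    exact mul_left_cancel₀ ha h3
  · have h2 : b' = a := by linarith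
    subst h2
    right; left
    refine ⟨?_, rfl⟩
    have h3 : b' * a' = b' * b := by linarith
    exact mul_left_cancel₀ ha h3
  · have h2 : b' = -a := by linarith
    subst h2
    right; right; right
    refine ⟨?_, rfl⟩
    have h3 : a * a' = a * (-b) := by linarith
    exact mul_left_cancel₀ ha h3

lemma cc_trivial (P R U V : ℚ) (h : U * V = 0) (n : ℕ) : cc n P R U V = if n = 0 then 1 else 0 := by
  rcases n with _ | _ | _ | _ | _ | _ | _ | _ | n <;> simp [cc, h]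

lemma trivial_iff {a b : ℤ} : Trivial a b ↔ ((a : ℚ) ^ 2 - 1) * ((b : ℚ) ^ 2 - 1) = 0 := by
  have h : ∀ x : ℤ, |x| = 1 ↔ (x : ℚ) ^ 2 - 1 = 0 := by
    intro x
    rw [abs_eq zero_le_one]
    constructor
    · rintro (rfl | rfl) <;> norm_num
    · intro h0
      have h1 : (x - 1) * (x + 1) = 0 := by
        have h2 : x ^ 2 - 1 = 0 := by exact_mod_cast h0
        linear_combination h2
      rcases mul_eq_zero.1 h1 with h2 | h2
      · left; linarith
      · right; linarith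
  rw [mul_eq_zero, Trivial, h, h]

/-- The main theorem. -/
theorem main {a b c d a' b' c' d' : ℤ} (hab : Torus a b) (hcd : Torus c d)
    (hab' : Torus a' b') (hcd' : Torus c' d') :
    (∀ n ≤ 7, coeff n (tau (a : ℚ) b c d) = coeff n (tau (a' : ℚ) b' c' d')) ↔
      ((Trivial a b ∨ Trivial c d) ∧ (Trivial a' b' ∨ Trivial c' d')) ∨
      SamePair a b c d a' b' c' d' := by
  obtain ⟨ha, hb, hab⟩ := hab
  obtain ⟨hc, hd, hcd⟩ := hcd
  obtain ⟨ha', hb', hab'⟩ := hab'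
  obtain ⟨hc', hd', hcd'⟩ := hcd'
  have hq : ∀ {x : ℤ}, x ≠ 0 → (x : ℚ) ≠ 0 := fun h => by exact_mod_cast h
  constructor
  · intro h
    have hcc : ∀ n ≤ 7, cc n ((a : ℚ) * b) ((c : ℚ) * d) (((a : ℚ) ^ 2 - 1) * ((b : ℚ) ^ 2 - 1))
        (((c : ℚ) ^ 2 - 1) * ((d : ℚ) ^ 2 - 1)) =
        cc n ((a' : ℚ) * b') ((c' : ℚ) * d') (((a' : ℚ) ^ 2 - 1) * ((b' : ℚ) ^ 2 - 1))
        (((c' : ℚ) ^ 2 - 1) * ((d' : ℚ) ^ 2 - 1)) := by
      intro n hn
      rw [← coeff_tau _ _ _ _ (hq ha) (hq hb) (hq hc) (hq hd) n hn,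
        ← coeff_tau _ _ _ _ (hq ha') (hq hb') (hq hc') (hq hd') n hn]
      exact h n hn
    have h2 := hcc 2 (by norm_num)
    simp only [cc] at h2
    have hT : (Trivial a b ∨ Trivial c d) ↔ (Trivial a' b' ∨ Trivial c' d') := by
      rw [trivial_iff, trivial_iff, trivial_iff, trivial_iff, ← mul_eq_zero, ← mul_eq_zero]
      constructor <;> intro h0 <;> linarith
    by_cases hT1 : Trivial a b ∨ Trivial c d
    · left; exact ⟨hT1, hT.1 hT1⟩
    · right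
      have hT2 : ¬ (Trivial a' b' ∨ Trivial c' d') := fun h0 => hT1 (hT.2 h0)
      rw [not_or] at hT1 hT2
      obtain ⟨k1, k2⟩ := abs_two_le ha hb hT1.1
      obtain ⟨k3, k4⟩ := abs_two_le hc hd hT1.2
      obtain ⟨k5, k6⟩ := abs_two_le ha' hb' hT2.1
      obtain ⟨k7, k8⟩ := abs_two_le hc' hd' hT2.2
      have s1 := sys_knots hab k1 k2 hcd k3 k4
      have s2 := sys_knots hab' k5 k6 hcd' k7 k8
      rcases pair_eq (inv_of_cc s1 hcc) s1 s2 with ⟨e1, e2, e3, e4⟩ | ⟨e1, e2, e3, e4⟩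
      · left; exact ⟨same_of_eq ha e1 e2, same_of_eq hc e3 e4⟩
      · right; exact ⟨same_of_eq ha e1 e2, same_of_eq hc e3 e4⟩
  · rintro (⟨h1, h2⟩ | h) n hn
    · rw [coeff_tau _ _ _ _ (hq ha) (hq hb) (hq hc) (hq hd) n hn,
        coeff_tau _ _ _ _ (hq ha') (hq hb') (hq hc') (hq hd') n hn]
      rw [trivial_iff, trivial_iff, ← mul_eq_zero] at h1 h2
      rw [cc_trivial _ _ _ _ h1, cc_trivial _ _ _ _ h2]
    · rw [tau_samePair h]

/-- Degrees at most four do not suffice. -/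
theorem degree_four : ∀ n ≤ 4, coeff n (tau 2 15 3 (-10)) = coeff n (tau 2 (-15) 3 10) := by
  intro n hn
  rw [coeff_tau _ _ _ _ (by norm_num) (by norm_num) (by norm_num) (by norm_num) n (by omega),
    coeff_tau _ _ _ _ (by norm_num) (by norm_num) (by norm_num) (by norm_num) n (by omega)]
  interval_cases n <;> norm_num [cc]

end Pool.Agent.H57.LMO
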